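import Mathlib

set_option autoImplicit false

namespace Pool.Agent.Lib.MP_0c183c_co_P9W

open Filter

/-- Sample space of the limit. -/
abbrev XX : Type := (ℚ → ℕ) × ℕ

/-- iterated ultrafilter quantifier -/
def Big : List ℚ → Set (ℚ → ℕ) → Set XX → Prop
  | [], Y, B => ∀ᶠ l in (hyperfilter ℕ : Filter ℕ), ∀ x ∈ Y, (x, l) ∈ B
  | q :: qs, Y, B => ∀ᶠ v in (hyperfilter ℕ : Filter ℕ), Big qs {x ∈ Y | x q = v} B

theorem Big.mono {qs : List ℚ} : ∀ {Y Y' : Set (ℚ → ℕ)} {B B' : Set XX}, Big qs Y B → Y' ⊆ Y →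
    B ⊆ B' → Big qs Y' B' := by
  induction qs with
  | nil =>
    intro Y Y' B B' h hY hB
    exact Eventually.mono h fun l hl x hx => hB (hl x (hY hx))
  | cons q qs ih =>
    intro Y Y' B B' h hY hB
    exact Eventually.mono h fun v hv => ih hv (fun x hx => ⟨hY hx.1, hx.2⟩) hB

theorem Big.sublist {qs qs' : List ℚ} (h : qs.Sublist qs') : ∀ {Y : Set (ℚ → ℕ)} {B : Set XX},
    Big qs Y B → Big qs' Y B := by
  induction h with
  | slnil => intro Y B h; exact h
  | cons q h ih =>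
    intro Y B hB
    exact Eventually.of_forall fun v => ih (hB.mono (fun x hx => hx.1) subset_rfl)
  | cons_cons q h ih =>
    intro Y B hB
    exact Eventually.mono hB fun v hv => ih hv

theorem Big.inter {qs : List ℚ} : ∀ {Y : Set (ℚ → ℕ)} {B B' : Set XX}, Big qs Y B → Big qs Y B' →
    Big qs Y (B ∩ B') := by
  induction qs with
  | nil =>
    intro Y B B' h h'
    exact (Eventually.and h h').mono fun l hl x hx => ⟨hl.1 x hx, hl.2 x hx⟩
  | cons q qs ih =>
    intro Y B B' h h'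
    exact (Eventually.and h h').mono fun v hv => ih hv.1 hv.2

theorem exists_common (qs qs' : List ℚ) (h : qs.Pairwise (· < ·)) (h' : qs'.Pairwise (· < ·)) :
    ∃ ss : List ℚ, ss.Pairwise (· < ·) ∧ qs.Sublist ss ∧ qs'.Sublist ss := by
  classical
  let ss := (qs.toFinset ∪ qs'.toFinset).sort (· ≤ ·)
  have hs : ss.Pairwise (· < ·) := by
    have := Finset.sortedLT_sort (qs.toFinset ∪ qs'.toFinset)
    exact this.pairwise
  have hs' : ss.Pairwise (· ≤ ·) := hs.imp fun h => h.le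
  have key : ∀ rs : List ℚ, rs.Pairwise (· < ·) → (∀ a ∈ rs, a ∈ ss) → rs.Sublist ss := by
    intro rs hr hsub
    have hnd : rs.Nodup := hr.imp fun h => h.ne
    have h1 : rs.Subperm ss := List.subperm_of_subset hnd hsub
    exact List.sublist_of_subperm_of_pairwise h1 (hr.imp fun h => h.le) hs'
  refine ⟨ss, hs, key qs h fun a ha => ?_, key qs' h' fun a ha => ?_⟩
  · rw [Finset.mem_sort]; simp [ha]
  · rw [Finset.mem_sort]; simp [ha]

/-- The filter of the limit. -/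
def GG : Filter XX where
  sets := {B | ∃ qs : List ℚ, qs.Pairwise (· < ·) ∧ Big qs Set.univ B}
  univ_sets := ⟨[], List.Pairwise.nil, Eventually.of_forall fun _ _ _ => trivial⟩
  sets_of_superset := by
    rintro B B' ⟨qs, h1, h2⟩ h
    exact ⟨qs, h1, h2.mono subset_rfl h⟩
  inter_sets := by
    rintro B B' ⟨qs, h1, h2⟩ ⟨qs', h1', h2'⟩
    obtain ⟨ss, hs, ha, hb⟩ := exists_common qs qs' h1 h1'
    exact ⟨ss, hs, (h2.sublist ha).inter (h2'.sublist hb)⟩

theorem mem_GG {B : Set XX} : B ∈ GG ↔ ∃ qs : List ℚ, qs.Pairwise (· < ·) ∧ Big qs Set.univ B :=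
  Iff.rfl

theorem not_big_empty {qs : List ℚ} (hqs : qs.Nodup) : ∀ {Y : Set (ℚ → ℕ)},
    (∀ f : ℚ → ℕ, ∃ x ∈ Y, ∀ q ∈ qs, x q = f q) → ¬ Big qs Y ∅ := by
  induction qs with
  | nil =>
    intro Y hY h
    obtain ⟨x, hx, _⟩ := hY fun _ => 0
    obtain ⟨l, hl⟩ := h.exists
    exact hl x hx
  | cons q qs ih =>
    intro Y hY h
    obtain ⟨v, hv⟩ := h.exists
    rw [List.nodup_cons] at hqs
    refine ih hqs.2 (fun f => ?_) hv
    classical
    obtain ⟨x, hx, hx2⟩ := hY (Function.update f q v)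
    refine ⟨x, ⟨hx, ?_⟩, fun a ha => ?_⟩
    · rw [hx2 q List.mem_cons_self, Function.update_self]
    · rw [hx2 a (List.mem_cons_of_mem _ ha), Function.update_of_ne]
      rintro rfl
      exact hqs.1 ha

instance : NeBot GG := by
  rw [← Filter.forall_mem_nonempty_iff_neBot]
  intro B hB
  by_contra h
  rw [Set.not_nonempty_iff_eq_empty] at h
  subst h
  obtain ⟨qs, h1, h2⟩ := hB
  exact not_big_empty (h1.imp fun h => h.ne) (fun f => ⟨f, trivial, fun _ _ => rfl⟩) h2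

theorem big_or {qs : List ℚ} : ∀ {Y : Set (ℚ → ℕ)} {B : Set XX},
    (∀ x ∈ Y, ∀ x' ∈ Y, (∀ q ∈ qs, x q = x' q) → ∀ l, (x, l) ∈ B ↔ (x', l) ∈ B) →
    Big qs Y B ∨ Big qs Y Bᶜ := by
  induction qs with
  | nil =>
    intro Y B h
    rcases Set.eq_empty_or_nonempty Y with rfl | ⟨x, hx⟩
    · left
      exact Eventually.of_forall fun _ _ hx => absurd hx (Set.notMem_empty _)
    · rcases Ultrafilter.em (hyperfilter ℕ) (fun l => (x, l) ∈ B) with h1 | h1
      · left
        exact h1.mono fun l hl x' hx' => (h x hx x' hx' (by simp) l).1 hl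
      · right
        exact h1.mono fun l hl x' hx' h2 => hl ((h x hx x' hx' (by simp) l).2 h2)
  | cons q qs ih =>
    intro Y B h
    have h1 : ∀ v, Big qs {x ∈ Y | x q = v} B ∨ Big qs {x ∈ Y | x q = v} Bᶜ := by
      intro v
      refine ih fun x hx x' hx' h3 l => h x hx.1 x' hx'.1 ?_ l
      intro a ha
      rcases List.mem_cons.1 ha with rfl | ha
      · rw [hx.2, hx'.2]
      · exact h3 a ha
    rcases Ultrafilter.em (hyperfilter ℕ) (fun v => Big qs {x ∈ Y | x q = v} B) with h2 | h2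
    · left; exact h2
    · right
      exact h2.mono fun v hv => (h1 v).resolve_left hv

/-- zero-one law for sets with finite support -/
theorem zero_one {B : Set XX} (F : Finset ℚ)
    (h : ∀ (x x' : ℚ → ℕ) (l : ℕ), (∀ q ∈ F, x q = x' q) → ((x, l) ∈ B ↔ (x', l) ∈ B)) :
    B ∈ GG ∨ Bᶜ ∈ GG := by
  have hs : (F.sort (· ≤ ·)).Pairwise (· < ·) := (Finset.sortedLT_sort F).pairwise
  have := big_or (qs := F.sort (· ≤ ·)) (Y := Set.univ) (B := B) (fun x _ x' _ h1 l =>
    h x x' l fun q hq => h1 q ((Finset.mem_sort _).2 hq))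
  rcases this with h1 | h1
  · exact Or.inl ⟨_, hs, h1⟩
  · exact Or.inr ⟨_, hs, h1⟩

theorem big_map (g : ℚ ≃o ℚ) {qs : List ℚ} : ∀ {Y : Set (ℚ → ℕ)} {B : Set XX}, Big qs Y B →
    Big (qs.map g) {x | x ∘ g ∈ Y} {z | (z.1 ∘ g, z.2) ∈ B} := by
  induction qs with
  | nil =>
    intro Y B h
    exact Eventually.mono h fun l hl x hx => hl _ hx
  | cons q qs ih =>
    intro Y B h
    refine Eventually.mono h fun v hv => ?_
    exact (ih hv).mono (fun x hx => ⟨hx.1, hx.2⟩) subset_rfl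

theorem GG_map (g : ℚ ≃o ℚ) {B : Set XX} (h : B ∈ GG) : {z : XX | (z.1 ∘ g, z.2) ∈ B} ∈ GG := by
  obtain ⟨qs, h1, h2⟩ := h
  refine ⟨qs.map g, ?_, (big_map g h2).mono (fun x _ => trivial) subset_rfl⟩
  rw [List.pairwise_map]
  exact h1.imp fun h => g.strictMono h

theorem eventually_gt (n : ℕ) : ∀ᶠ l in (hyperfilter ℕ : Filter ℕ), n < l := by
  have h1 : ∀ᶠ l in (Filter.atTop : Filter ℕ), n < l := Filter.eventually_gt_atTop n
  have h2 : (hyperfilter ℕ : Filter ℕ) ≤ Filter.atTop := by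
    rw [← Nat.cofinite_eq_atTop]
    exact Filter.hyperfilter_le_cofinite
  exact h2 h1

theorem GG_lt {q q' : ℚ} (h : q < q') : ∀ᶠ z in GG, z.1 q < z.1 q' := by
  refine ⟨[q, q'], by simp [h], ?_⟩
  refine Eventually.of_forall fun v => ?_
  refine (eventually_gt v).mono fun v' hv' => ?_
  refine Eventually.of_forall fun l x hx => ?_
  rcases hx with ⟨⟨_, h1⟩, h2⟩
  change x q < x q'
  rw [h1, h2]
  exact hv'

theorem GG_bound (q : ℚ) (m : ℕ → ℕ) (hm : ∀ l, l ≤ m l) : ∀ᶠ z in GG, z.1 q < m z.2 := by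
  refine ⟨[q], by simp, ?_⟩
  refine Eventually.of_forall fun v => ?_
  refine (eventually_gt v).mono fun l hl x hx => ?_
  rcases hx with ⟨_, h1⟩
  change x q < m l
  rw [h1]
  exact hl.trans_le (hm l)

theorem GG_level (n : ℕ) : ∀ᶠ z in GG, n < z.2 := by
  refine ⟨[], by simp, ?_⟩
  exact (eventually_gt n).mono fun l hl x _ => hl

end Pool.Agent.Lib.MP_0c183c_co_P9W
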