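import Mathlib
import Pool.Agent.Lib.MP_0c183c_co_P9W.Filt

set_option autoImplicit false

namespace Pool.Agent.Lib.MP_0c183c_co_P9W

open Filter Polynomial

/-- `f` depends only on the coordinates in `F` (and on the level). -/
def SuppIn {β : Type*} (F : Finset ℚ) (f : XX → β) : Prop :=
  ∀ (x x' : ℚ → ℕ) (l : ℕ), (∀ q ∈ F, x q = x' q) → f (x, l) = f (x', l)

theorem SuppIn.mono {β : Type*} {F F' : Finset ℚ} {f : XX → β} (h : SuppIn F f) (hF : F ⊆ F') :
    SuppIn F' f := fun x x' l hx => h x x' l fun q hq => hx q (hF hq)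

theorem SuppIn.comp {β γ : Type*} {F : Finset ℚ} {f : XX → β} (h : SuppIn F f) (φ : β → γ) :
    SuppIn F fun z => φ (f z) := fun x x' l hx => congrArg φ (h x x' l hx)

theorem SuppIn.comp2 {β γ δ : Type*} {F F' : Finset ℚ} {f : XX → β} {g : XX → γ} (h : SuppIn F f)
    (h' : SuppIn F' g) (φ : β → γ → δ) : SuppIn (F ∪ F') fun z => φ (f z) (g z) := by
  intro x x' l hx
  have h1 := h x x' l fun q hq => hx q (Finset.mem_union_left _ hq)
  have h2 := h' x x' l fun q hq => hx q (Finset.mem_union_right _ hq)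
  simp only [h1, h2]

section

variable (Ω₀ : Type) [Field Ω₀] [Algebra (ZMod 2) Ω₀]

/-- functions of finite support -/
def RR : Subalgebra (ZMod 2) (XX → Ω₀) where
  carrier := {f | ∃ F, SuppIn F f}
  mul_mem' := by
    rintro f g ⟨F, hF⟩ ⟨F', hF'⟩
    exact ⟨F ∪ F', hF.comp2 hF' (· * ·)⟩
  add_mem' := by
    rintro f g ⟨F, hF⟩ ⟨F', hF'⟩
    exact ⟨F ∪ F', hF.comp2 hF' (· + ·)⟩
  algebraMap_mem' := by
    intro r
    exact ⟨∅, fun _ _ _ _ => rfl⟩

/-- functions which are zero almost everywhere -/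
def II : Ideal (RR Ω₀) where
  carrier := {f | ∀ᶠ z in GG, f.1 z = 0}
  add_mem' := by
    intro f g hf hg
    have hf' : ∀ᶠ z in GG, f.1 z = 0 := hf
    have hg' : ∀ᶠ z in GG, g.1 z = 0 := hg
    have : ∀ᶠ z in GG, (f + g).1 z = 0 := (hf'.and hg').mono fun z hz => by
      change f.1 z + g.1 z = 0
      rw [hz.1, hz.2, add_zero]
    exact this
  zero_mem' := by
    have : ∀ᶠ z in GG, (0 : RR Ω₀).1 z = 0 := Eventually.of_forall fun _ => rfl
    exact this
  smul_mem' := by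
    intro f g hg
    have hg' : ∀ᶠ z in GG, g.1 z = 0 := hg
    have : ∀ᶠ z in GG, (f * g).1 z = 0 := hg'.mono fun z hz => by
      change f.1 z * g.1 z = 0
      rw [hz, mul_zero]
    exact this

variable {Ω₀}

theorem mem_II {f : RR Ω₀} : f ∈ II Ω₀ ↔ ∀ᶠ z in GG, f.1 z = 0 := Iff.rfl

theorem em_supp (p : XX → Prop) (F : Finset ℚ) (h : SuppIn F p) :
    (∀ᶠ z in GG, p z) ∨ ∀ᶠ z in GG, ¬ p z := by
  refine zero_one (B := {z | p z}) F fun x x' l hx => ?_
  have := h x x' l hx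
  change p (x, l) ↔ p (x', l)
  rw [this]

theorem not_mem_II {f : RR Ω₀} : f ∉ II Ω₀ ↔ ∀ᶠ z in GG, f.1 z ≠ 0 := by
  obtain ⟨F, hF⟩ := f.2
  constructor
  · intro h
    exact (em_supp (fun z => f.1 z = 0) F (hF.comp (· = 0))).resolve_left h
  · intro h h'
    obtain ⟨z, h1, h2⟩ := (h.and (mem_II.1 h')).exists
    exact h1 h2

instance : (II Ω₀).IsMaximal := by
  rw [Ideal.isMaximal_iff]
  constructor
  · intro h
    obtain ⟨z, hz⟩ := (mem_II.1 h).exists
    exact one_ne_zero hz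
  · intro J f hJ hf hfJ
    obtain ⟨F, hF⟩ := f.2
    let g : RR Ω₀ := ⟨fun z => (f.1 z)⁻¹, F, hF.comp (·⁻¹)⟩
    have h1 : f * g - 1 ∈ II Ω₀ := by
      refine (not_mem_II.1 hf).mono fun z hz => ?_
      change f.1 z * (f.1 z)⁻¹ - 1 = 0
      rw [mul_inv_cancel₀ hz, sub_self]
    have h2 : (1 : RR Ω₀) = f * g - (f * g - 1) := by ring
    rw [h2]
    exact J.sub_mem (J.mul_mem_right _ hfJ) (hJ h1)

variable (Ω₀) in
/-- the limit field -/
abbrev Lim : Type := RR Ω₀ ⧸ II Ω₀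

noncomputable instance : Field (Lim Ω₀) := Ideal.Quotient.field _

/-- class of a function -/
abbrev cl : RR Ω₀ →+* Lim Ω₀ := Ideal.Quotient.mk _

theorem cl_eq {f g : RR Ω₀} : cl f = cl g ↔ ∀ᶠ z in GG, f.1 z = g.1 z := by
  rw [Ideal.Quotient.eq, mem_II]
  constructor <;> intro h <;> refine h.mono fun z hz => ?_
  · exact sub_eq_zero.1 hz
  · exact sub_eq_zero.2 hz

theorem cl_surj : Function.Surjective (cl (Ω₀ := Ω₀)) := Ideal.Quotient.mk_surjective

/-- evaluation at a point -/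
def evz (z : XX) : RR Ω₀ →+* Ω₀ := (Pi.evalRingHom (fun _ : XX => Ω₀) z).comp (RR Ω₀).val.toRingHom

theorem evz_apply (z : XX) (f : RR Ω₀) : evz z f = f.1 z := rfl

instance [IsAlgClosed Ω₀] : IsAlgClosed (Lim Ω₀) := by
  classical
  refine IsAlgClosed.of_exists_root _ fun p hp hirr => ?_
  have hl : p ∈ Polynomial.lifts (cl (Ω₀ := Ω₀)) := by
    rw [Polynomial.lifts_iff_coeff_lifts]
    intro n
    exact cl_surj _
  obtain ⟨P, hP1, hP2, hP3⟩ := Polynomial.lifts_and_natDegree_eq_and_monic hl hp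
  have hdeg : 0 < P.natDegree := by
    rw [hP2]
    exact hirr.natDegree_pos
  have hroot : ∀ Q : Ω₀[X], ∃ r : Ω₀, 0 < Q.natDegree → Q.eval r = 0 := by
    intro Q
    by_cases hQ : 0 < Q.natDegree
    · obtain ⟨r, hr⟩ := IsAlgClosed.exists_root Q (by
        intro h
        rw [Polynomial.natDegree_eq_of_degree_eq_some h] at hQ
        exact lt_irrefl _ hQ)
      exact ⟨r, fun _ => hr⟩
    · exact ⟨0, fun h => absurd h hQ⟩
  choose ρ hρ using hroot
  have hF : ∀ i, ∃ F, SuppIn F (P.coeff i).1 := fun i => (P.coeff i).2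
  choose F hF using hF
  let FF : Finset ℚ := P.support.biUnion F
  have hmap : ∀ x x' l, (∀ q ∈ FF, x q = x' q) → P.map (evz (x, l)) = P.map (evz (x', l)) := by
    intro x x' l hx
    ext i
    rw [Polynomial.coeff_map, Polynomial.coeff_map, evz_apply, evz_apply]
    by_cases hi : i ∈ P.support
    · exact hF i x x' l fun q hq => hx q (Finset.mem_biUnion.2 ⟨i, hi, hq⟩)
    · rw [Polynomial.notMem_support_iff.1 hi]
      rfl
  let r : RR Ω₀ := ⟨fun z => ρ (P.map (evz z)), FF, fun x x' l hx => by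
    change ρ (P.map (evz (x, l))) = ρ (P.map (evz (x', l)))
    rw [hmap x x' l hx]⟩
  refine ⟨cl r, ?_⟩
  have h1 : P.eval r = 0 := by
    apply Subtype.ext
    funext z
    have h2 : evz z (P.eval r) = (P.map (evz z)).eval (evz z r) := by
      rw [Polynomial.eval_map, Polynomial.eval₂_hom]
    change evz z (P.eval r) = 0
    rw [h2]
    apply hρ
    rw [hP3.natDegree_map]
    exact hdeg
  rw [← hP1, Polynomial.eval_map, Polynomial.eval₂_hom, h1, map_zero]

/-- The action of an order automorphism on functions. -/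
def actR (g : ℚ ≃o ℚ) : RR Ω₀ →+* RR Ω₀ where
  toFun f := ⟨fun z => f.1 (z.1 ∘ g, z.2), by
    obtain ⟨F, hF⟩ := f.2
    refine ⟨F.image g, fun x x' l hx => ?_⟩
    exact hF _ _ l fun q hq => hx (g q) (Finset.mem_image_of_mem _ hq)⟩
  map_one' := rfl
  map_mul' _ _ := rfl
  map_zero' := rfl
  map_add' _ _ := rfl

theorem actR_mem (g : ℚ ≃o ℚ) {f : RR Ω₀} (hf : f ∈ II Ω₀) : actR g f ∈ II Ω₀ :=
  GG_map g hf

/-- The action on the limit field. -/
noncomputable def actL (g : ℚ ≃o ℚ) : Lim Ω₀ →+* Lim Ω₀ :=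
  Ideal.quotientMap (II Ω₀) (actR g) (fun _ hf => actR_mem g hf)

theorem actL_cl (g : ℚ ≃o ℚ) (f : RR Ω₀) : actL g (cl f) = cl (actR g f) := rfl

/-- The automorphism of the limit field. -/
noncomputable def actE (g : ℚ ≃o ℚ) : Lim Ω₀ ≃+* Lim Ω₀ :=
  RingEquiv.ofRingHom (actL g) (actL g.symm) (by
    apply RingHom.ext
    intro y
    obtain ⟨f, rfl⟩ := cl_surj y
    rw [RingHom.comp_apply, actL_cl, actL_cl]
    refine congrArg cl (Subtype.ext (funext fun z => ?_))
    change f.1 ((z.1 ∘ g) ∘ g.symm, z.2) = f.1 z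
    have : (z.1 ∘ g) ∘ g.symm = z.1 := by
      funext q
      simp
    rw [this]) (by
    apply RingHom.ext
    intro y
    obtain ⟨f, rfl⟩ := cl_surj y
    rw [RingHom.comp_apply, actL_cl, actL_cl]
    refine congrArg cl (Subtype.ext (funext fun z => ?_))
    change f.1 ((z.1 ∘ g.symm) ∘ g, z.2) = f.1 z
    have : (z.1 ∘ g.symm) ∘ g = z.1 := by
      funext q
      simp
    rw [this])

theorem actE_cl (g : ℚ ≃o ℚ) (f : RR Ω₀) : actE g (cl f) = cl (actR g f) := rfl

end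

end Pool.Agent.Lib.MP_0c183c_co_P9W
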