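import Mathlib
import Pool.Agent.Lib.MP_0c183c_co_P9W.Lim

set_option autoImplicit false

namespace Pool.Agent.Lib.MP_0c183c_co_P9W

open Filter Polynomial

/-- A matrix of rank `≤ r` factors through dimension `r`. -/
theorem exists_factor {m n k : Type} [Fintype m] [Fintype n] [Field k]
    (M : Matrix m n k) (r : ℕ) (h : M.rank ≤ r) :
    ∃ (U : Matrix m (Fin r) k) (V : Matrix (Fin r) n k), M = U * V := by
  classical
  let W := LinearMap.range M.mulVecLin
  have h1 : Module.finrank k W ≤ Module.finrank k (Fin r → k) := by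
    rw [Module.finrank_fin_fun]
    exact h
  obtain ⟨φ, hφ⟩ := finrank_le_iff_exists_linearMap.1 h1
  obtain ⟨ψ, hψ⟩ := LinearMap.exists_leftInverse_of_injective φ (LinearMap.ker_eq_bot.2 hφ)
  let c : n → W := fun j => ⟨M.mulVecLin (Pi.single j 1), LinearMap.mem_range_self _ _⟩
  refine ⟨LinearMap.toMatrix' (W.subtype ∘ₗ ψ), fun a j => φ (c j) a, ?_⟩
  ext i j
  have h2 : (LinearMap.toMatrix' (W.subtype ∘ₗ ψ)).mulVec (φ (c j)) = (c j).1 := by
    rw [LinearMap.toMatrix'_mulVec]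
    change (ψ (φ (c j))).1 = (c j).1
    have : ψ (φ (c j)) = (ψ ∘ₗ φ) (c j) := rfl
    rw [this, hψ]
    rfl
  have h3 : (c j).1 i = M i j := by
    change (M.mulVec (Pi.single j 1)) i = M i j
    rw [Matrix.mulVec_single_one]
    rfl
  rw [← h3, ← h2]
  rfl

theorem rank_le_of_factor {m n k : Type} [Fintype m] [Fintype n] [Field k]
    {M : Matrix m n k} {r : ℕ} (U : Matrix m (Fin r) k) (V : Matrix (Fin r) n k) (h : M = U * V) :
    M.rank ≤ r := by
  rw [h]
  refine (Matrix.rank_mul_le_left U V).trans ?_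
  exact (Matrix.rank_le_card_width U).trans_eq (Fintype.card_fin r)

variable {Ω₀ : Type} [Field Ω₀] [Algebra (ZMod 2) Ω₀]

theorem sum_mul_val {α : Type} [Fintype α] (f g : α → RR Ω₀) (z : XX) :
    (∑ a, f a * g a).1 z = ∑ a, (f a).1 z * (g a).1 z := by
  have h : evz z (∑ a, f a * g a) = ∑ a, evz z (f a) * evz z (g a) := by
    rw [map_sum]
    simp only [map_mul]
  exact h

theorem cl_sum_mul {α : Type} [Fintype α] (f g : α → RR Ω₀) :
    cl (∑ a, f a * g a) = ∑ a, cl (f a) * cl (g a) := by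
  rw [map_sum]
  exact Finset.sum_congr rfl fun a _ => map_mul _ _ _

/-- the matrix of classes -/
noncomputable def clM {m n : Type} (M : m → n → RR Ω₀) : Matrix m n (Lim Ω₀) := fun i j => cl (M i j)

/-- the matrix at a point -/
def evM {m n : Type} (M : m → n → RR Ω₀) (z : XX) : Matrix m n Ω₀ := fun i j => (M i j).1 z

theorem rank_ev_of_cl {m n : Type} [Fintype m] [Fintype n] (M : m → n → RR Ω₀) (r : ℕ)
    (h : (clM M).rank ≤ r) : ∀ᶠ z in GG, (evM M z).rank ≤ r := by
  obtain ⟨U, V, hUV⟩ := exists_factor _ r h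
  choose U' hU' using fun i a => cl_surj (U i a)
  choose V' hV' using fun a j => cl_surj (V a j)
  have h1 : ∀ i j, ∀ᶠ z in GG, (M i j).1 z = ∑ a, (U' i a).1 z * (V' a j).1 z := by
    intro i j
    have h2 : cl (M i j) = cl (∑ a, U' i a * V' a j) := by
      have h3 : cl (M i j) = ∑ a, U i a * V a j := congrFun (congrFun hUV i) j
      rw [cl_sum_mul, h3]
      refine Finset.sum_congr rfl fun a _ => ?_
      rw [hU', hV']
    refine (cl_eq.1 h2).mono fun z hz => ?_
    rw [hz, sum_mul_val]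
  have h5 : ∀ᶠ z in GG, ∀ i j, (M i j).1 z = ∑ a, (U' i a).1 z * (V' a j).1 z :=
    Filter.eventually_all.2 fun i => Filter.eventually_all.2 fun j => h1 i j
  refine h5.mono fun z hz => ?_
  refine rank_le_of_factor (fun i a => (U' i a).1 z) (fun a j => (V' a j).1 z) ?_
  ext i j
  exact hz i j

omit [Algebra (ZMod 2) Ω₀] in
theorem exists_factor_fun {m n : Type} [Fintype m] [Fintype n] (r : ℕ) :
    ∃ (U : Matrix m n Ω₀ → Matrix m (Fin r) Ω₀) (V : Matrix m n Ω₀ → Matrix (Fin r) n Ω₀),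
      ∀ N, N.rank ≤ r → N = U N * V N := by
  have key : ∀ N : Matrix m n Ω₀, ∃ (U : Matrix m (Fin r) Ω₀) (V : Matrix (Fin r) n Ω₀),
      N.rank ≤ r → N = U * V := by
    intro N
    by_cases hN : N.rank ≤ r
    · obtain ⟨U, V, h⟩ := exists_factor N r hN
      exact ⟨U, V, fun _ => h⟩
    · exact ⟨0, 0, fun h => absurd h hN⟩
  choose U V hUV using key
  exact ⟨U, V, hUV⟩

theorem supp_evM {m n : Type} [Fintype m] [Fintype n] (M : m → n → RR Ω₀) :
    ∃ F, SuppIn F (evM M) := by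
  classical
  have hF : ∀ i j, ∃ F, SuppIn F (M i j).1 := fun i j => (M i j).2
  choose F hF using hF
  refine ⟨Finset.univ.biUnion fun i => Finset.univ.biUnion fun j => F i j, ?_⟩
  intro x x' l hx
  ext i j
  exact hF i j x x' l fun q hq => hx q (Finset.mem_biUnion.2 ⟨i, Finset.mem_univ _,
    Finset.mem_biUnion.2 ⟨j, Finset.mem_univ _, hq⟩⟩)

theorem rank_cl_of_ev {m n : Type} [Fintype m] [Fintype n] (M : m → n → RR Ω₀) (r : ℕ)
    (h : ∀ᶠ z in GG, (evM M z).rank ≤ r) : (clM M).rank ≤ r := by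
  obtain ⟨U, V, hUV⟩ := exists_factor_fun (Ω₀ := Ω₀) (m := m) (n := n) r
  obtain ⟨FF, hNN⟩ := supp_evM M
  let U' : m → Fin r → RR Ω₀ := fun i a => ⟨fun z => U (evM M z) i a, FF,
    hNN.comp fun N => U N i a⟩
  let V' : Fin r → n → RR Ω₀ := fun a j => ⟨fun z => V (evM M z) a j, FF,
    hNN.comp fun N => V N a j⟩
  refine rank_le_of_factor (fun i a => cl (U' i a)) (fun a j => cl (V' a j)) ?_
  ext i j
  have h2 : cl (M i j) = cl (∑ a, U' i a * V' a j) := by
    refine cl_eq.2 (h.mono fun z hz => ?_)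
    have h5 : evM M z i j = (U (evM M z) * V (evM M z)) i j :=
      congrFun (congrFun (hUV (evM M z) hz) i) j
    rw [sum_mul_val]
    exact h5
  rw [cl_sum_mul] at h2
  exact h2

end Pool.Agent.Lib.MP_0c183c_co_P9W
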