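import Mathlib

set_option autoImplicit false

/-!
# MP_0c183c_co: the limit structure `World` for the bounded order theorem (parts (C), (D))

`Vx = ℚ × Bool`: the two vertices of the element (matching edge) `q : ℚ`.
`P T` is the array in which exactly the elements of `T` are at `y`, all other elements are absorbed
at generic parameters; only the entries over `T` have a meaning.  The base field is `ZMod 2`.
-/

namespace Pool.Agent.Lib.MP_0c183c_co_P9W

/-- Vertices: an element and a side. -/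
abbrev Vx : Type := ℚ × Bool

/-- The entries of an array over `T`. -/
def entries {ι Ω : Type} (T : Finset ι) (M : ι × Bool → ι × Bool → Ω) : Set Ω :=
  {z | ∃ x y : ι × Bool, x.1 ∈ T ∧ y.1 ∈ T ∧ z = M x y}

/-- The absorption formula in one element `b`. -/
def absorb {ι Ω : Type} [Field Ω] (M : ι × Bool → ι × Bool → Ω) (b : ι) (t : Ω) :
    ι × Bool → ι × Bool → Ω :=
  fun x y => M x y + t * (M x (b, false) * M (b, true) y + M x (b, true) * M (b, false) y)

/-- The submatrix with rows `A` and columns `B`. -/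
def sub {ι Ω : Type} (M : ι × Bool → ι × Bool → Ω) (A B : Finset (ι × Bool)) : Matrix A B Ω :=
  fun a b => M a.1 b.1

/-- The completed array over `T`: the diagonal blocks are `θ i * J`. -/
def completed {ι Ω : Type} [DecidableEq ι] [Field Ω] (T : Finset ι) (M : ι × Bool → ι × Bool → Ω)
    (θ : ι → Ω) : Matrix (T × Bool) (T × Bool) Ω :=
  fun x y => if x.1 = y.1 then (if x.2 = y.2 then 0 else θ x.1.1) else M (x.1.1, x.2) (y.1.1, y.2)

/-- `t` is transcendental over the field (equivalently the ring) generated by the set `X` over the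
prime field. -/
def Generic {Ω : Type} [Field Ω] [Algebra (ZMod 2) Ω] (X : Set Ω) (t : Ω) : Prop :=
  Transcendental (Algebra.adjoin (ZMod 2) X) t

/-- The limit structure. -/
structure World where
  /-- the big field -/
  Ω : Type
  [fld : Field Ω]
  [alg : Algebra (ZMod 2) Ω]
  [closed : IsAlgClosed Ω]
  /-- the arrays -/
  P : Finset ℚ → Vx → Vx → Ω
  symm : ∀ T x y, P T x y = P T y x
  abs : ∀ (T : Finset ℚ) (b : ℚ), b ∈ T → ∃ t : Ω, Generic (entries T (P T)) t ∧
      ∀ x y : Vx, x.1 ∈ T.erase b → y.1 ∈ T.erase b → P (T.erase b) x y = absorb (P T) b t x y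
  rank : ∀ (A B : Finset Vx), (∀ a ∈ A, ∀ b ∈ B, a.1 ≠ b.1) → ∀ T T' : Finset ℚ,
    (∀ x ∈ A ∪ B, x.1 ∈ T) → (∀ x ∈ A ∪ B, x.1 ∈ T') →
      (sub (P T) A B).rank = (sub (P T') A B).rank
  aut : ∀ g : ℚ ≃o ℚ, ∃ σ : Ω ≃+* Ω, ∀ (T : Finset ℚ) (x y : Vx),
    x.1 ∈ T → y.1 ∈ T → σ (P T x y) = P (T.image g) (g x.1, x.2) (g y.1, y.2)
  nocomp : ∀ (T : Finset ℚ) (θ : ℚ → Ω), 2 * T.card < (completed T (P T) θ).rank + 6
  room : ∀ X : Finset Ω, ∃ t : Ω, Generic (X : Set Ω) t

/-- Finite data of level `c` on `m` elements in the fixed field `Ω₀`. -/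
structure Level (Ω₀ : Type) [Field Ω₀] [Algebra (ZMod 2) Ω₀] (c m : ℕ) where
  /-- the arrays -/
  p : Finset (Fin m) → (Fin m × Bool) → (Fin m × Bool) → Ω₀
  symm : ∀ T x y, p T x y = p T y x
  abs : ∀ (T : Finset (Fin m)) (b : Fin m), b ∈ T → ∃ t : Ω₀, Generic (entries T (p T)) t ∧
      ∀ x y : Fin m × Bool, x.1 ∈ T.erase b → y.1 ∈ T.erase b →
        p (T.erase b) x y = absorb (p T) b t x y
  rank : ∀ (A B : Finset (Fin m × Bool)), (∀ a ∈ A, ∀ b ∈ B, a.1 ≠ b.1) → A.card ≤ c → B.card ≤ c →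
    ∀ T T' : Finset (Fin m), (∀ x ∈ A ∪ B, x.1 ∈ T) → (∀ x ∈ A ∪ B, x.1 ∈ T') →
      (sub (p T) A B).rank = (sub (p T') A B).rank
  nocomp : ∀ (T : Finset (Fin m)) (θ : Fin m → Ω₀), 2 * T.card < (completed T (p T) θ).rank + 6

attribute [instance] World.fld World.alg World.closed

end Pool.Agent.Lib.MP_0c183c_co_P9W
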