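import Mathlib
import Pool.Agent.Lib.MP_0c183c_co_P9W.World
import Pool.Agent.Lib.MP_0c183c_co_P9W.Rank

set_option autoImplicit false

namespace Pool.Agent.Lib.MP_0c183c_co_P9W

open Filter Polynomial

/-- Transcendence over the subring generated by a family, in terms of polynomial relations. -/
theorem transc_iff {ι Ω : Type} [Field Ω] [Algebra (ZMod 2) Ω] (x : ι → Ω) (t : Ω) :
    Transcendental (Algebra.adjoin (ZMod 2) (Set.range x)) t ↔
      ∀ F : (MvPolynomial ι (ZMod 2))[X],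
        F.eval₂ (MvPolynomial.aeval x : MvPolynomial ι (ZMod 2) →ₐ[ZMod 2] Ω).toRingHom t = 0 →
        F.map (MvPolynomial.aeval x : MvPolynomial ι (ZMod 2) →ₐ[ZMod 2] Ω).toRingHom = 0 := by
  rw [Algebra.adjoin_range_eq_range_aeval]
  set φ : MvPolynomial ι (ZMod 2) →ₐ[ZMod 2] Ω := MvPolynomial.aeval x with hφ
  rw [transcendental_iff]
  have h1 : ∀ F : (MvPolynomial ι (ZMod 2))[X],
      aeval t (F.map φ.rangeRestrict.toRingHom) = F.eval₂ φ.toRingHom t := by
    intro F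
    rw [Polynomial.aeval_def, Polynomial.eval₂_map]
    rfl
  have h2 : ∀ F : (MvPolynomial ι (ZMod 2))[X],
      (F.map φ.rangeRestrict.toRingHom).map (algebraMap φ.range Ω) = F.map φ.toRingHom := by
    intro F
    rw [Polynomial.map_map]
    rfl
  constructor
  · intro h F hF
    have h3 := h (F.map φ.rangeRestrict.toRingHom) (by rw [h1, hF])
    rw [← h2, h3, Polynomial.map_zero]
  · intro h p hp
    obtain ⟨F, rfl⟩ := Polynomial.map_surjective φ.rangeRestrict.toRingHom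
      φ.rangeRestrict_surjective p
    have h3 := h F (by rw [← h1, hp])
    rw [← h2] at h3
    refine Polynomial.map_injective (algebraMap φ.range Ω) Subtype.val_injective ?_
    rw [h3, Polynomial.map_zero]

section

variable {Ω₀ : Type} [Field Ω₀] [Algebra (ZMod 2) Ω₀]

theorem algebraMap_cl (r : ZMod 2) :
    algebraMap (ZMod 2) (Lim Ω₀) r = cl (algebraMap (ZMod 2) (RR Ω₀) r) := rfl

theorem aeval_cl {ι : Type} (a : ι → RR Ω₀) (f : MvPolynomial ι (ZMod 2)) :
    MvPolynomial.aeval (fun i => cl (a i)) f = cl (MvPolynomial.aeval a f) := by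
  induction f using MvPolynomial.induction_on with
  | C r => rw [MvPolynomial.aeval_C, MvPolynomial.aeval_C, algebraMap_cl]
  | add p q hp hq => rw [map_add, map_add, map_add, hp, hq]
  | mul_X p i hp => rw [map_mul, map_mul, map_mul, hp, MvPolynomial.aeval_X, MvPolynomial.aeval_X]

theorem aeval_val {ι : Type} (a : ι → RR Ω₀) (f : MvPolynomial ι (ZMod 2)) (z : XX) :
    (MvPolynomial.aeval a f : RR Ω₀).1 z = MvPolynomial.aeval (fun i => (a i).1 z) f := by
  induction f using MvPolynomial.induction_on with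
  | C r =>
    rw [MvPolynomial.aeval_C, MvPolynomial.aeval_C]
    rfl
  | add p q hp hq =>
    rw [map_add, map_add, ← hp, ← hq]
    rfl
  | mul_X p i hp =>
    rw [map_mul, map_mul, ← hp, MvPolynomial.aeval_X, MvPolynomial.aeval_X]
    rfl

theorem eval₂_cl {ι : Type} (a : ι → RR Ω₀) (t : RR Ω₀) (F : (MvPolynomial ι (ZMod 2))[X]) :
    F.eval₂ (MvPolynomial.aeval (fun i => cl (a i)) :
      MvPolynomial ι (ZMod 2) →ₐ[ZMod 2] Lim Ω₀).toRingHom (cl t) =
    cl (F.eval₂ (MvPolynomial.aeval a : MvPolynomial ι (ZMod 2) →ₐ[ZMod 2] RR Ω₀).toRingHom t) := by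
  rw [Polynomial.hom_eval₂]
  refine congrArg (fun f => F.eval₂ f (cl t)) ?_
  exact RingHom.ext fun f => aeval_cl a f

theorem eval₂_val {ι : Type} (a : ι → RR Ω₀) (t : RR Ω₀) (F : (MvPolynomial ι (ZMod 2))[X])
    (z : XX) :
    F.eval₂ (MvPolynomial.aeval (fun i => (a i).1 z) :
      MvPolynomial ι (ZMod 2) →ₐ[ZMod 2] Ω₀).toRingHom (t.1 z) =
    (F.eval₂ (MvPolynomial.aeval a : MvPolynomial ι (ZMod 2) →ₐ[ZMod 2] RR Ω₀).toRingHom t).1 z := by
  have h := Polynomial.hom_eval₂ F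
    (MvPolynomial.aeval a : MvPolynomial ι (ZMod 2) →ₐ[ZMod 2] RR Ω₀).toRingHom (evz z) t
  refine Eq.trans ?_ h.symm
  refine congrArg (fun f => F.eval₂ f (t.1 z)) ?_
  exact RingHom.ext fun f => (aeval_val a f z).symm

theorem cl_zero_iff {f : RR Ω₀} : cl f = 0 ↔ ∀ᶠ z in GG, f.1 z = 0 := by
  rw [← RingHom.map_zero (cl (Ω₀ := Ω₀)), cl_eq]
  rfl

theorem transc_cl {ι : Type} (a : ι → RR Ω₀) (t : RR Ω₀)
    (h : ∀ᶠ z in GG, Transcendental (Algebra.adjoin (ZMod 2) (Set.range fun i => (a i).1 z))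
      (t.1 z)) :
    Transcendental (Algebra.adjoin (ZMod 2) (Set.range fun i => cl (a i))) (cl t) := by
  rw [transc_iff]
  intro F hF
  rw [eval₂_cl, cl_zero_iff] at hF
  ext k
  rw [Polynomial.coeff_map, Polynomial.coeff_zero]
  change MvPolynomial.aeval (fun i => cl (a i)) (F.coeff k) = 0
  rw [aeval_cl, cl_zero_iff]
  filter_upwards [h, hF] with z hz hz2
  rw [transc_iff] at hz
  rw [← eval₂_val] at hz2
  have h5 := congrArg (fun p => p.coeff k) (hz F hz2)
  simp only [Polynomial.coeff_map, Polynomial.coeff_zero] at h5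
  rw [aeval_val]
  exact h5

theorem lim_room (room : ∀ X : Finset Ω₀, ∃ t : Ω₀, Generic (X : Set Ω₀) t)
    (X : Finset (Lim Ω₀)) : ∃ t : Lim Ω₀, Generic (X : Set (Lim Ω₀)) t := by
  classical
  choose ρ hρ using room
  choose a ha using fun i : X => cl_surj i.1
  have hF : ∀ i, ∃ F, SuppIn F (a i).1 := fun i => (a i).2
  choose F hF using hF
  let S : XX → Finset Ω₀ := fun z => Finset.univ.image fun i => (a i).1 z
  have hS : SuppIn (Finset.univ.biUnion F) S := by
    intro x x' l hx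
    refine Finset.image_congr fun i _ => ?_
    exact hF i x x' l fun q hq => hx q (Finset.mem_biUnion.2 ⟨i, Finset.mem_univ _, hq⟩)
  let t : RR Ω₀ := ⟨fun z => ρ (S z), _, hS.comp ρ⟩
  refine ⟨cl t, ?_⟩
  have h1 : (X : Set (Lim Ω₀)) = Set.range fun i : X => cl (a i) := by
    ext y
    constructor
    · intro hy
      exact ⟨⟨y, hy⟩, ha _⟩
    · rintro ⟨i, rfl⟩
      change cl (a i) ∈ X
      rw [ha]
      exact i.2
  rw [Generic, h1]
  refine transc_cl a t (Eventually.of_forall fun z => ?_)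
  have h2 := hρ (S z)
  rw [Generic] at h2
  have h3 : ((S z : Finset Ω₀) : Set Ω₀) = Set.range fun i => (a i).1 z := by
    simp [S]
  rw [h3] at h2
  exact h2

end

section

variable {Ω₀ : Type} [Field Ω₀] [Algebra (ZMod 2) Ω₀] {c m : ℕ → ℕ} (hc : ∀ l, l ≤ c l)
  (hm : ∀ l, l < m l) (Lv : ∀ l, Level Ω₀ (c l) (m l))

/-- the element of level `l` with number `n` -/
def el (l n : ℕ) : Fin (m l) := ⟨n % m l, Nat.mod_lt _ ((Nat.zero_le l).trans_lt (hm l))⟩

/-- the embedding of the elements at a point -/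
def ph (z : XX) (q : ℚ) : Fin (m z.2) := el hm z.2 (z.1 q)

theorem ph_congr {F : Finset ℚ} {x x' : ℚ → ℕ} {l : ℕ} (h : ∀ q ∈ F, x q = x' q) :
    ∀ q ∈ F, ph hm (x, l) q = ph hm (x', l) q := by
  intro q hq
  change el hm l (x q) = el hm l (x' q)
  rw [h q hq]

theorem ph_inj (T : Finset ℚ) : ∀ᶠ z in GG, ∀ q ∈ T, ∀ q' ∈ T, ph hm z q = ph hm z q' → q = q' := by
  have h1 : ∀ᶠ z in GG, ∀ q ∈ T, z.1 q < m z.2 := by
    rw [Filter.eventually_all_finset]
    intro q _
    exact GG_bound q m fun l => (hm l).le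
  have h2 : ∀ᶠ z in GG, ∀ q ∈ T, ∀ q' ∈ T, q < q' → z.1 q < z.1 q' := by
    rw [Filter.eventually_all_finset]
    intro q _
    rw [Filter.eventually_all_finset]
    intro q' _
    by_cases h : q < q'
    · exact (GG_lt h).mono fun z hz _ => hz
    · exact Eventually.of_forall fun z h' => absurd h' h
  filter_upwards [h1, h2] with z hz1 hz2 q hq q' hq' h
  have h3 : z.1 q % m z.2 = z.1 q' % m z.2 := congrArg Fin.val h
  rw [Nat.mod_eq_of_lt (hz1 q hq), Nat.mod_eq_of_lt (hz1 q' hq')] at h3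
  rcases lt_trichotomy q q' with h4 | h4 | h4
  · exact absurd h3 (hz2 q hq q' hq' h4).ne
  · exact h4
  · exact absurd h3 (hz2 q' hq' q hq h4).ne'

/-- The arrays as functions on the sample space. -/
def PF (T : Finset ℚ) (x y : Vx) : RR Ω₀ :=
  ⟨fun z => (Lv z.2).p (T.image (ph hm z)) (ph hm z x.1, x.2) (ph hm z y.1, y.2), T ∪ {x.1, y.1}, by
    intro u u' l h
    have h1 := ph_congr hm (l := l) h
    have h2 : T.image (ph hm (u, l)) = T.image (ph hm (u', l)) :=
      Finset.image_congr fun q hq => h1 q (Finset.mem_union_left _ hq)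
    change (Lv l).p (T.image (ph hm (u, l))) (ph hm (u, l) x.1, x.2) (ph hm (u, l) y.1, y.2) =
      (Lv l).p (T.image (ph hm (u', l))) (ph hm (u', l) x.1, x.2) (ph hm (u', l) y.1, y.2)
    rw [h2, h1 x.1 (by simp), h1 y.1 (by simp)]⟩

theorem PF_val (T : Finset ℚ) (x y : Vx) (z : XX) :
    (PF hm Lv T x y).1 z =
      (Lv z.2).p (T.image (ph hm z)) (ph hm z x.1, x.2) (ph hm z y.1, y.2) := rfl

/-- The arrays of the limit. -/
noncomputable def PL (T : Finset ℚ) (x y : Vx) : Lim Ω₀ := cl (PF hm Lv T x y)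

theorem PL_symm (T : Finset ℚ) (x y : Vx) : PL hm Lv T x y = PL hm Lv T y x :=
  cl_eq.2 (Eventually.of_forall fun z => (Lv z.2).symm _ _ _)

theorem PL_aut (g : ℚ ≃o ℚ) (T : Finset ℚ) (x y : Vx) :
    actE g (PL hm Lv T x y) = PL hm Lv (T.image g) (g x.1, x.2) (g y.1, y.2) := by
  change cl (actR g (PF hm Lv T x y)) = _
  refine congrArg cl (Subtype.ext (funext fun z => ?_))
  change (Lv z.2).p (T.image (ph hm (z.1 ∘ g, z.2))) (ph hm z (g x.1), x.2) (ph hm z (g y.1), y.2) =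
    (Lv z.2).p ((T.image g).image (ph hm z)) (ph hm z (g x.1), x.2) (ph hm z (g y.1), y.2)
  rw [Finset.image_image]
  rfl

open Classical in
/-- the absorption parameter at a level -/
noncomputable def tau (l : ℕ) (S : Finset (Fin (m l))) (b : Fin (m l)) : Ω₀ :=
  if h : b ∈ S then ((Lv l).abs S b h).choose else 0

theorem tau_spec (l : ℕ) (S : Finset (Fin (m l))) (b : Fin (m l)) (h : b ∈ S) :
    Generic (entries S ((Lv l).p S)) (tau Lv l S b) ∧
      ∀ x y : Fin (m l) × Bool, x.1 ∈ S.erase b → y.1 ∈ S.erase b →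
        (Lv l).p (S.erase b) x y = absorb ((Lv l).p S) b (tau Lv l S b) x y := by
  rw [tau, dif_pos h]
  exact ((Lv l).abs S b h).choose_spec

/-- the absorption parameter as a function -/
noncomputable def tauF (T : Finset ℚ) (b : ℚ) : RR Ω₀ :=
  ⟨fun z => tau Lv z.2 (T.image (ph hm z)) (ph hm z b), T ∪ {b}, by
    intro u u' l h
    have h1 := ph_congr hm (l := l) h
    have h2 : T.image (ph hm (u, l)) = T.image (ph hm (u', l)) :=
      Finset.image_congr fun q hq => h1 q (Finset.mem_union_left _ hq)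
    change tau Lv l (T.image (ph hm (u, l))) (ph hm (u, l) b) =
      tau Lv l (T.image (ph hm (u', l))) (ph hm (u', l) b)
    rw [h2, h1 b (by simp)]⟩

theorem entries_eq_range {ι Ω : Type} (T : Finset ι) (M : ι × Bool → ι × Bool → Ω) :
    entries T M = Set.range fun i : (T × Bool) × (T × Bool) =>
      M (i.1.1.1, i.1.2) (i.2.1.1, i.2.2) := by
  ext z
  constructor
  · rintro ⟨x, y, hx, hy, rfl⟩
    exact ⟨((⟨x.1, hx⟩, x.2), (⟨y.1, hy⟩, y.2)), rfl⟩
  · rintro ⟨i, rfl⟩
    exact ⟨_, _, i.1.1.2, i.2.1.2, rfl⟩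

theorem entries_image {ι ι' Ω : Type} [DecidableEq ι'] (T : Finset ι) (φ : ι → ι')
    (M : ι' × Bool → ι' × Bool → Ω) :
    entries (T.image φ) M = Set.range fun i : (T × Bool) × (T × Bool) =>
      M (φ i.1.1.1, i.1.2) (φ i.2.1.1, i.2.2) := by
  ext z
  constructor
  · rintro ⟨x, y, hx, hy, rfl⟩
    obtain ⟨x', hx', hx2⟩ := Finset.mem_image.1 hx
    obtain ⟨y', hy', hy2⟩ := Finset.mem_image.1 hy
    refine ⟨((⟨x', hx'⟩, x.2), (⟨y', hy'⟩, y.2)), ?_⟩
    change M (φ x', x.2) (φ y', y.2) = M x y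
    rw [hx2, hy2]
  · rintro ⟨i, rfl⟩
    exact ⟨_, _, Finset.mem_image_of_mem _ i.1.1.2, Finset.mem_image_of_mem _ i.2.1.2, rfl⟩

theorem PL_abs (T : Finset ℚ) (b : ℚ) (hb : b ∈ T) : ∃ t : Lim Ω₀,
    Generic (entries T (PL hm Lv T)) t ∧ ∀ x y : Vx, x.1 ∈ T.erase b → y.1 ∈ T.erase b →
      PL hm Lv (T.erase b) x y = absorb (PL hm Lv T) b t x y := by
  refine ⟨cl (tauF hm Lv T b), ?_, ?_⟩
  · rw [Generic, entries_eq_range]
    refine transc_cl (fun i : (T × Bool) × (T × Bool) => PF hm Lv T (i.1.1.1, i.1.2)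
      (i.2.1.1, i.2.2)) (tauF hm Lv T b) ?_
    refine Eventually.of_forall fun z => ?_
    have h1 := (tau_spec Lv z.2 (T.image (ph hm z)) (ph hm z b) (Finset.mem_image_of_mem _ hb)).1
    rw [Generic, entries_image] at h1
    exact h1
  · intro x y hx hy
    have h2 : absorb (PL hm Lv T) b (cl (tauF hm Lv T b)) x y =
        cl (PF hm Lv T x y + tauF hm Lv T b * (PF hm Lv T x (b, false) * PF hm Lv T (b, true) y +
          PF hm Lv T x (b, true) * PF hm Lv T (b, false) y)) := by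
      rw [RingHom.map_add, RingHom.map_mul, RingHom.map_add, RingHom.map_mul, RingHom.map_mul]
      rfl
    rw [h2]
    refine cl_eq.2 ?_
    filter_upwards [ph_inj hm T] with z hz
    have himg : (T.erase b).image (ph hm z) = (T.image (ph hm z)).erase (ph hm z b) := by
      ext a
      rw [Finset.mem_image, Finset.mem_erase, Finset.mem_image]
      constructor
      · rintro ⟨q, hq, rfl⟩
        rw [Finset.mem_erase] at hq
        exact ⟨fun h => hq.1 (hz q hq.2 b hb h), q, hq.2, rfl⟩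
      · rintro ⟨h1, q, hq, rfl⟩
        exact ⟨q, Finset.mem_erase.2 ⟨fun h => h1 (by rw [h]), hq⟩, rfl⟩
    rw [PF_val, himg]
    refine ((tau_spec Lv z.2 (T.image (ph hm z)) (ph hm z b) (Finset.mem_image_of_mem _ hb)).2
      (ph hm z x.1, x.2) (ph hm z y.1, y.2) ?_ ?_).trans rfl
    · rw [← himg]; exact Finset.mem_image_of_mem _ hx
    · rw [← himg]; exact Finset.mem_image_of_mem _ hy

theorem rank_submatrix_surj {m' n' m₁ n₁ R : Type} [Fintype m'] [Fintype n'] [Fintype m₁]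
    [Fintype n₁] [Field R] (A : Matrix m' n' R) (r : m₁ → m') (s : n₁ → n')
    (hr : Function.Surjective r) (hs : Function.Surjective s) : (A.submatrix r s).rank = A.rank := by
  refine le_antisymm (Matrix.rank_submatrix_le A r s) ?_
  obtain ⟨r', hr'⟩ := hr.hasRightInverse
  obtain ⟨s', hs'⟩ := hs.hasRightInverse
  have h1 : A = (A.submatrix r s).submatrix r' s' := by
    ext i j
    rw [Matrix.submatrix_apply, Matrix.submatrix_apply, hr' i, hs' j]
  conv_lhs => rw [h1]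
  exact Matrix.rank_submatrix_le _ _ _

theorem rank_ev (z : XX) (T : Finset ℚ) (A B : Finset Vx) :
    (evM (fun (a : A) (b : B) => PF hm Lv T a.1 b.1) z).rank =
      (sub ((Lv z.2).p (T.image (ph hm z))) (A.image fun x => (ph hm z x.1, x.2))
        (B.image fun x => (ph hm z x.1, x.2))).rank := by
  rw [← rank_submatrix_surj (sub ((Lv z.2).p (T.image (ph hm z)))
    (A.image fun x => (ph hm z x.1, x.2)) (B.image fun x => (ph hm z x.1, x.2)))
    (fun a : A => ⟨(ph hm z a.1.1, a.1.2), Finset.mem_image_of_mem _ a.2⟩)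
    (fun b : B => ⟨(ph hm z b.1.1, b.1.2), Finset.mem_image_of_mem _ b.2⟩)]
  · rfl
  · rintro ⟨y, hy⟩
    obtain ⟨x, hx, rfl⟩ := Finset.mem_image.1 hy
    exact ⟨⟨x, hx⟩, rfl⟩
  · rintro ⟨y, hy⟩
    obtain ⟨x, hx, rfl⟩ := Finset.mem_image.1 hy
    exact ⟨⟨x, hx⟩, rfl⟩

include hc in
theorem PL_rank_le (A B : Finset Vx) (hAB : ∀ a ∈ A, ∀ b ∈ B, a.1 ≠ b.1) (T T' : Finset ℚ)
    (hT : ∀ x ∈ A ∪ B, x.1 ∈ T) (hT' : ∀ x ∈ A ∪ B, x.1 ∈ T') :
    (sub (PL hm Lv T) A B).rank ≤ (sub (PL hm Lv T') A B).rank := by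
  have h1 : ∀ᶠ z in GG, (evM (fun (a : A) (b : B) => PF hm Lv T' a.1 b.1) z).rank ≤
      (sub (PL hm Lv T') A B).rank := rank_ev_of_cl _ _ le_rfl
  refine rank_cl_of_ev (fun (a : A) (b : B) => PF hm Lv T a.1 b.1) _ ?_
  filter_upwards [h1, ph_inj hm T, GG_level A.card, GG_level B.card] with z hz1 hz2 hz3 hz4
  rw [rank_ev] at hz1 ⊢
  refine le_trans (le_of_eq ?_) hz1
  refine (Lv z.2).rank _ _ ?_ ?_ ?_ _ _ ?_ ?_
  · intro a ha b hb h
    obtain ⟨a', ha', rfl⟩ := Finset.mem_image.1 ha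
    obtain ⟨b', hb', rfl⟩ := Finset.mem_image.1 hb
    exact hAB a' ha' b' hb' (hz2 _ (hT a' (Finset.mem_union_left _ ha')) _
      (hT b' (Finset.mem_union_right _ hb')) h)
  · exact Finset.card_image_le.trans (hz3.le.trans (hc _))
  · exact Finset.card_image_le.trans (hz4.le.trans (hc _))
  · intro x hx
    rw [← Finset.image_union] at hx
    obtain ⟨x', hx', rfl⟩ := Finset.mem_image.1 hx
    exact Finset.mem_image_of_mem _ (hT x' hx')
  · intro x hx
    rw [← Finset.image_union] at hx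
    obtain ⟨x', hx', rfl⟩ := Finset.mem_image.1 hx
    exact Finset.mem_image_of_mem _ (hT' x' hx')

theorem PL_nocomp (T : Finset ℚ) (θ : ℚ → Lim Ω₀) :
    2 * T.card < (completed T (PL hm Lv T) θ).rank + 6 := by
  classical
  choose θ' hθ' using fun q => cl_surj (θ q)
  let M : T × Bool → T × Bool → RR Ω₀ := fun x y =>
    if x.1 = y.1 then (if x.2 = y.2 then 0 else θ' x.1.1) else PF hm Lv T (x.1.1, x.2) (y.1.1, y.2)
  have hM : clM M = completed T (PL hm Lv T) θ := by
    ext x y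
    change cl (M x y) = _
    simp only [M, completed]
    split_ifs
    · exact map_zero _
    · exact hθ' _
    · rfl
  have h1 : ∀ᶠ z in GG, (evM M z).rank ≤ (completed T (PL hm Lv T) θ).rank := by
    refine rank_ev_of_cl _ _ ?_
    rw [hM]
  obtain ⟨z, hz1, hz2⟩ := (h1.and (ph_inj hm T)).exists
  let θz : Fin (m z.2) → Ω₀ := fun b => if h : ∃ q ∈ T, ph hm z q = b then
    (θ' h.choose).1 z else 0
  have hθz : ∀ q ∈ T, θz (ph hm z q) = (θ' q).1 z := by
    intro q hq
    have h : ∃ q' ∈ T, ph hm z q' = ph hm z q := ⟨q, hq, rfl⟩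
    simp only [θz]
    rw [dif_pos h]
    rw [hz2 _ h.choose_spec.1 _ hq h.choose_spec.2]
  have h2 := (Lv z.2).nocomp (T.image (ph hm z)) θz
  have h3 : (T.image (ph hm z)).card = T.card :=
    Finset.card_image_of_injOn fun q hq q' hq' h => hz2 q hq q' hq' h
  have h4 : (evM M z).rank =
      (completed (T.image (ph hm z)) ((Lv z.2).p (T.image (ph hm z))) θz).rank := by
    rw [← rank_submatrix_surj (completed (T.image (ph hm z)) ((Lv z.2).p (T.image (ph hm z))) θz)
      (fun a : T × Bool => (⟨ph hm z a.1.1, Finset.mem_image_of_mem _ a.1.2⟩, a.2))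
      (fun a : T × Bool => (⟨ph hm z a.1.1, Finset.mem_image_of_mem _ a.1.2⟩, a.2))]
    · congr 1
      ext x y
      obtain ⟨x1, x2⟩ := x
      obtain ⟨y1, y2⟩ := y
      change (if x1 = y1 then (if x2 = y2 then 0 else θ' x1.1) else
        PF hm Lv T (x1.1, x2) (y1.1, y2)).1 z =
        if (⟨ph hm z x1.1, Finset.mem_image_of_mem _ x1.2⟩ : (T.image (ph hm z) : Finset _)) =
          ⟨ph hm z y1.1, Finset.mem_image_of_mem _ y1.2⟩ then
          (if x2 = y2 then 0 else θz (ph hm z x1.1)) else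
          (Lv z.2).p (T.image (ph hm z)) (ph hm z x1.1, x2) (ph hm z y1.1, y2)
      by_cases h5 : x1 = y1
      · subst h5
        rw [if_pos rfl, if_pos rfl]
        by_cases h6 : x2 = y2
        · rw [if_pos h6, if_pos h6]; rfl
        · rw [if_neg h6, if_neg h6]
          exact (hθz _ x1.2).symm
      · rw [if_neg h5, if_neg]
        · rfl
        · intro h6
          exact h5 (Subtype.ext (hz2 _ x1.2 _ y1.2 (congrArg Subtype.val h6)))
    all_goals
      rintro ⟨⟨y, hy⟩, s⟩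
      obtain ⟨x, hx, rfl⟩ := Finset.mem_image.1 hy
      exact ⟨(⟨x, hx⟩, s), rfl⟩
  rw [h3, ← h4] at h2
  omega

end

/-- THEOREM 2 (limit): arbitrarily large finite data give a `World`. -/
theorem world_of_levels (Ω₀ : Type) [Field Ω₀] [Algebra (ZMod 2) Ω₀] [IsAlgClosed Ω₀]
    (room : ∀ X : Finset Ω₀, ∃ t : Ω₀, Generic (X : Set Ω₀) t)
    (h : ∀ N : ℕ, ∃ c m : ℕ, N ≤ c ∧ N ≤ m ∧ Nonempty (Level Ω₀ c m)) :
    Nonempty World := by
  choose c m h1 h2 h3 using fun l : ℕ => h (l + 1)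
  have Lv : ∀ l, Level Ω₀ (c l) (m l) := fun l => (h3 l).some
  have hc : ∀ l, l ≤ c l := fun l => (Nat.le_succ l).trans (h1 l)
  have hm : ∀ l, l < m l := fun l => h2 l
  exact ⟨{
    Ω := Lim Ω₀
    P := PL hm Lv
    symm := PL_symm hm Lv
    abs := PL_abs hm Lv
    rank := fun A B hAB T T' hT hT' => le_antisymm (PL_rank_le hc hm Lv A B hAB T T' hT hT')
      (PL_rank_le hc hm Lv A B hAB T' T hT' hT)
    aut := fun g => ⟨actE g, fun T x y _ _ => PL_aut hm Lv g T x y⟩
    nocomp := PL_nocomp hm Lv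
    room := lim_room room }⟩

end Pool.Agent.Lib.MP_0c183c_co_P9W
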