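import Mathlib
import Pool.Agent.Lib.MP_0c183c_co_P9W.World

set_option autoImplicit false

namespace Pool.Agent.Lib.MP_0c183c_co_P9W

open Cardinal

/-- A field with an infinite algebraically independent family has room. -/
theorem room_of_algebraicIndependent {Ω : Type} [Field Ω] [Algebra (ZMod 2) Ω] (x : ℕ → Ω)
    (hx : AlgebraicIndependent (ZMod 2) x) (X : Finset Ω) : ∃ t : Ω, Generic (X : Set Ω) t := by
  by_contra h
  have h1 : Algebra.IsAlgebraic (Algebra.adjoin (ZMod 2) (X : Set Ω)) Ω := by
    refine ⟨fun t => ?_⟩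
    by_contra ht
    exact h ⟨t, ht⟩
  have h2 : Algebra.trdeg (ZMod 2) Ω ≤ #(X : Set Ω) :=
    Algebra.IsAlgebraic.trdeg_le_cardinalMk (ZMod 2) (X : Set Ω)
  have h3 := hx.cardinalMk_le_trdeg
  have h4 : #(X : Set Ω) < ℵ₀ := by
    rw [Cardinal.lt_aleph0_iff_finite]
    exact X.finite_toSet
  rw [Cardinal.mk_nat] at h3
  exact absurd (h3.trans h2) (not_le.2 h4)

/-- The field used for the supply side has room. -/
theorem room_closure (K : Type) [Field K] [Algebra (ZMod 2) K]
    (X : Finset (AlgebraicClosure (FractionRing (MvPolynomial ℕ K)))) :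
    ∃ t, Generic (X : Set (AlgebraicClosure (FractionRing (MvPolynomial ℕ K)))) t := by
  let L := FractionRing (MvPolynomial ℕ K)
  let f : MvPolynomial ℕ K →ₐ[K] AlgebraicClosure L :=
    (IsScalarTower.toAlgHom K L (AlgebraicClosure L)).comp
      (IsScalarTower.toAlgHom K (MvPolynomial ℕ K) L)
  have hf : Function.Injective f := by
    have h1 : Function.Injective (algebraMap (MvPolynomial ℕ K) L) := IsFractionRing.injective _ _
    have h2 : Function.Injective (algebraMap L (AlgebraicClosure L)) :=
      (algebraMap L (AlgebraicClosure L)).injective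
    exact h2.comp h1
  have h1 : AlgebraicIndependent K (f ∘ MvPolynomial.X) :=
    (MvPolynomial.algebraicIndependent_X ℕ K).map' hf
  have h2 : AlgebraicIndependent (ZMod 2) (f ∘ MvPolynomial.X) :=
    AlgebraicIndependent.restrictScalars (R := ZMod 2) (K := K) (algebraMap (ZMod 2) K).injective h1
  exact room_of_algebraicIndependent _ h2 X

end Pool.Agent.Lib.MP_0c183c_co_P9W
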